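import Pool.Agent.L5helper73.AM.Bar
import Pool.Agent.Y150.Ch.Fc

/-!
# Closed affine manifolds whose fundamental group acts on a contractible complex

Chern's conjecture says that closed affine manifolds have Euler characteristic zero. By the
theorem of Poincare and Hopf it is enough to find a continuous vector field without zeros (on a
finite covering). We prove: let the fundamental group of a closed affine manifold of dimension `n`
act on a contractible simplicial complex, such that for every `j` the linear holonomy of the
stabilizer of each simplex of dimension `j` acts by positive scalars on some subspace of dimension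
at least `j + 1` of `ℝ ^ n`. Then the manifold has a continuous vector field without zeros. The
same is true with quotient spaces in place of subspaces. The complex need not be locally finite,
there may be infinitely many orbits of simplices, and the action is not assumed to be proper or
cocompact. So Chern's conjecture holds for closed affine manifolds whose fundamental group is the
fundamental group of a developable complex of groups of this kind with contractible development,
for instance if it acts on a contractible complex of dimension less than `n` such that the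
stabilizers of the simplices have trivial linear holonomy, and are otherwise arbitrary.

More generally we prove that, if there is no such field, `F σ` are subspaces which are permuted by
the group and on which the stabilizers act by positive scalars modulo an invariant subspace `W`,
then `dim (F σ / W) ≤ dim σ` for some simplex `σ`; and the same for quotients. And in place of the
barycentric coordinates of a contractible complex `Y` there can be functions `w a` on `X × Y` for
an arbitrary contractible space `Y` with an action of the group. If `Y` is a point, these are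
maps from `X` to complexes (covers of the manifold).

The starting files (TreesAndHyperbolicSpaces) treat trees, that is, complexes of dimension one; for
them it is enough that the stabilizers of the vertices leave half-lines invariant. The proof uses
the theorem of PiecesWithParallelFields about covers of the manifold, and equivariant maps from
`X` to the contractible space `Y`. If the stabilizers are amenable and the dimension of the complex
is less than `n`, then the vanishing of the Euler characteristic follows from the work of Gromov
and Ivanov-Turaev on bounded cohomology.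

By the starting files (`Y150.Ch.exists_min`) a closed affine manifold no finite covering of which
has a field without zeros contains a core: the closed affine manifold developed into an affine
subspace `H` of positive dimension, which is invariant under a subgroup of finite index. The theorem
applies to the core, and to all its finite coverings, as well.
-/

set_option autoImplicit false

open Set Filter Topology

namespace Pool.Agent.Results.MP_1fa9a4_gt.ContractibleComplexes

/-- A closed affine manifold `Γ \ X` modelled on the vector space `E`: the group `Γ` acts on the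
Hausdorff space `X` freely, properly discontinuously and with compact quotient, and the developing
map `dev` is a local homeomorphism to `E` that is equivariant with respect to the affine holonomy
`hol`. -/
structure ClosedAffine (X Γ E : Type) [TopologicalSpace X] [Group Γ] [MulAction Γ X]
    [NormedAddCommGroup E] [NormedSpace ℝ E] (dev : X → E) (hol : Γ →* (E ≃ᵃ[ℝ] E)) : Prop where
  /-- the developing map is a local homeomorphism -/
  loc : IsLocalHomeomorph dev
  /-- the group acts by homeomorphisms -/
  cont : ∀ γ : Γ, Continuous fun x : X => γ • x
  /-- the action is free -/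
  free : ∀ (γ : Γ) (x : X), γ • x = x → γ = 1
  /-- the developing map is equivariant -/
  equi : ∀ (γ : Γ) (x : X), dev (γ • x) = hol γ (dev x)
  /-- the action is properly discontinuous -/
  pd : ∀ K : Set X, IsCompact K → {γ : Γ | ∃ x ∈ K, γ • x ∈ K}.Finite
  /-- the quotient is compact -/
  cc : ∃ K : Set X, IsCompact K ∧ ∀ x : X, ∃ γ : Γ, ∃ k ∈ K, γ • k = x

variable {X Γ E : Type} [TopologicalSpace X] [Group Γ] [MulAction Γ X] [NormedAddCommGroup E]
  [NormedSpace ℝ E]

/-- The linear holonomy. -/
def lin (hol : Γ →* (E ≃ᵃ[ℝ] E)) (γ : Γ) : E →ₗ[ℝ] E := (hol γ).linear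

/-- The set `S` is invariant under `K`. -/
def Invariant (hol : Γ →* (E ≃ᵃ[ℝ] E)) (K : Subgroup Γ) (S : Set E) : Prop :=
  ∀ γ ∈ K, ∀ q ∈ S, hol γ q ∈ S

/-- The part of the cover which is developed into `H`. -/
def Over (dev : X → E) (H : Set E) : Set X := {x | dev x ∈ H}

/-- The affine manifold `K \ dev⁻¹(H)`, where `H` is an affine subspace with the direction `V`,
has a continuous vector field without zeros. For `H = E` this is a vector field without zeros on
the covering `K \ X` of `Γ \ X`. -/
def HasField (dev : X → E) (hol : Γ →* (E ≃ᵃ[ℝ] E)) (K : Subgroup Γ) (H : Set E)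
    (V : Submodule ℝ E) : Prop :=
  ∃ Z : X → E, ContinuousOn Z (Over dev H) ∧ (∀ x ∈ Over dev H, Z x ∈ V ∧ Z x ≠ 0) ∧
    ∀ γ ∈ K, ∀ x ∈ Over dev H, Z (γ • x) = lin hol γ (Z x)

/-- The group `K` acts by homeomorphisms on the contractible space `Y`. -/
structure ContractibleAction (K Y : Type) [Group K] [TopologicalSpace Y] [MulAction K Y] :
    Prop where
  contractible : ContractibleSpace Y
  cont : ∀ γ : K, Continuous fun y : Y => γ • y

/-- The image of a finite set of vertices. -/
def translate {K A : Type} [Group K] [MulAction K A] (γ : K) (σ : Finset A) : Finset A :=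
  σ.map (MulAction.toPerm γ).toEmbedding

/-- The functions `w a`, for the members `a` of the `K`-set `A`, on the part of `X × Y` over `H`,
have the properties of barycentric coordinates (those which do not depend on `x` are the
barycentric coordinates of a simplicial complex `Y` with the vertices `A`): at each point at least
one of them and only finitely many of them are positive; they are equicontinuous, and equivariant
under `K`. -/
structure Coordinates (dev : X → E) (K : Subgroup Γ) (H : Set E) {A Y : Type} [TopologicalSpace Y]
    [MulAction K Y] [MulAction K A] (w : A → X → Y → ℝ) : Prop where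
  pos : ∀ x ∈ Over dev H, ∀ y, ∃ a, 0 < w a x y
  finite : ∀ x ∈ Over dev H, ∀ y, {a | 0 < w a x y}.Finite
  equicontinuous : ∀ x ∈ Over dev H, ∀ y, ∀ ε > 0, ∀ᶠ p : X × Y in 𝓝 (x, y), p.1 ∈ Over dev H →
    ∀ a, |w a p.1 p.2 - w a x y| < ε
  equivariant : ∀ (γ : K) (a : A), ∀ x ∈ Over dev H, ∀ y, w (γ • a) (γ.1 • x) (γ • y) = w a x y

/-- The simplices: the finite nonempty sets of vertices with a common point over `H` at which all
their coordinates are positive. The dimension of the simplex `σ` is `σ.card - 1`. -/
def IsSimplex (dev : X → E) (H : Set E) {A Y : Type} (w : A → X → Y → ℝ) (σ : Finset A) : Prop :=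
  σ.Nonempty ∧ ∃ x ∈ Over dev H, ∃ y, ∀ a ∈ σ, 0 < w a x y

/-- The properties of the actions of `K` on contractible complexes; `V` is the direction of `H`, and
`W` is an invariant subspace of `V`. -/
structure Complexes (dev : X → E) (hol : Γ →* (E ≃ᵃ[ℝ] E)) (K : Subgroup Γ) (H : Set E)
    (V : Submodule ℝ E) : Prop where
  /-- Let the `F σ / W` be subspaces of `V / W`, for the simplices `σ`, which are permuted by `K`,
  such that the stabilizer of `σ` acts on `F σ / W` by positive scalars. Then the dimension of
  `F σ / W` is less than the number of the vertices of `σ` for some simplex `σ`. -/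
  vectors : ∀ (Y A : Type) [TopologicalSpace Y] [MulAction K Y] [MulAction K A],
    ContractibleAction K Y → ∀ w : A → X → Y → ℝ, Coordinates dev K H w →
    ∀ (W : Submodule ℝ E) (F : Finset A → Submodule ℝ E), W ≤ V →
    (∀ γ ∈ K, ∀ v ∈ W, lin hol γ v ∈ W) → (∀ σ, IsSimplex dev H w σ → W ≤ F σ ∧ F σ ≤ V) →
    (∀ (γ : K) σ, IsSimplex dev H w σ → ∀ v ∈ F σ, lin hol γ.1 v ∈ F (translate γ σ)) →
    (∀ (γ : K) σ, IsSimplex dev H w σ → translate γ σ = σ →
      ∃ c : ℝ, 0 < c ∧ ∀ v ∈ F σ, lin hol γ.1 v - c • v ∈ W) →
    ∃ σ, IsSimplex dev H w σ ∧ Module.finrank ℝ (F σ) < Module.finrank ℝ W + σ.card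
  /-- Let the `N σ` be subspaces of `W`, for the simplices `σ`, which are permuted by `K`, such that
  the stabilizer of `σ` acts on `W / N σ` by positive scalars. Then the dimension of `W / N σ` is
  less than the number of the vertices of `σ` for some simplex `σ`. -/
  forms : ∀ (Y A : Type) [TopologicalSpace Y] [MulAction K Y] [MulAction K A],
    ContractibleAction K Y → ∀ w : A → X → Y → ℝ, Coordinates dev K H w →
    ∀ (W : Submodule ℝ E) (N : Finset A → Submodule ℝ E), W ≤ V →
    (∀ γ ∈ K, ∀ v ∈ W, lin hol γ v ∈ W) → (∀ σ, IsSimplex dev H w σ → N σ ≤ W) →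
    (∀ (γ : K) σ, IsSimplex dev H w σ → ∀ v ∈ N σ, lin hol γ.1 v ∈ N (translate γ σ)) →
    (∀ (γ : K) σ, IsSimplex dev H w σ → translate γ σ = σ →
      ∃ c : ℝ, 0 < c ∧ ∀ v ∈ W, lin hol γ.1 v - c • v ∈ N σ) →
    ∃ σ, IsSimplex dev H w σ ∧ Module.finrank ℝ W < Module.finrank ℝ (N σ) + σ.card

/-- **Theorem.** Let `Γ \ X` be a closed affine manifold of positive dimension, with `X` connected.
(1) `Complexes` holds for all finite coverings `K \ X` of it which have no vector field without
zeros.
(2) If no finite covering of it has a vector field without zeros (this is the case if its Euler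
characteristic is not zero), then there are a subgroup `G` of finite index and a `G`-invariant
affine subspace `H` of positive dimension, which meets the developing image, such that for every
subgroup `K` of finite index in `G` the closed affine manifold `K \ dev⁻¹(H)` has no vector field
without zeros, and `Complexes` holds for it. -/
theorem result [T2Space X] [ConnectedSpace X] [FiniteDimensional ℝ E] [Nontrivial E]
    {dev : X → E} {hol : Γ →* (E ≃ᵃ[ℝ] E)} (D : ClosedAffine X Γ E dev hol) :
    (∀ K : Subgroup Γ, K.FiniteIndex → ¬ HasField dev hol K univ ⊤ →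
      Complexes dev hol K univ ⊤) ∧
    ((∀ K : Subgroup Γ, K.FiniteIndex → ¬ HasField dev hol K univ ⊤) →
      ∃ (G : Subgroup Γ) (H : AffineSubspace ℝ E), G.FiniteIndex ∧ Invariant hol G H ∧
        H.direction ≠ ⊥ ∧ (∃ x, dev x ∈ H) ∧
        ∀ K ≤ G, K.FiniteIndex → ¬ HasField dev hol K H H.direction ∧
          Complexes dev hol K H H.direction) := by
  have D' : Pool.Agent.W689.Ch.AffMfd X Γ E dev hol := ⟨D.loc, D.cont, D.equi, D.pd, D.cc⟩
  have gen : ∀ (H : AffineSubspace ℝ E) (K : Subgroup Γ) (x₀ : X), K.FiniteIndex →
      dev x₀ ∈ H → (∀ γ ∈ K, ∀ q ∈ H, hol γ q ∈ H) →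
      ¬ Pool.Agent.TH845.Mk.Fld dev (hol.comp K.subtype) H →
      Complexes dev hol K H H.direction := by
    intro H K x₀ hK hx hinv hfld
    have m : Pool.Agent.L5helper76.CF.NoFld dev hol K H x₀ := ⟨hK, hx, hinv, hfld⟩
    refine ⟨?_, ?_⟩
    · intro Y A _ _ _ hY w hw W F hWV hW hWF hF hs
      have := hY.contractible
      exact Pool.Agent.L5helper73.AM.vec_xy D' D.free m hY.cont
        ⟨hw.pos, hw.finite, hw.equicontinuous, fun γ a x hx => hw.equivariant γ a x hx⟩
        hWV hW hWF hF hs
    · intro Y A _ _ _ hY w hw W N hWV hW hNW hN hs
      have := hY.contractible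
      exact Pool.Agent.L5helper73.AM.form_xy D' D.free m hY.cont
        ⟨hw.pos, hw.finite, hw.equicontinuous, fun γ a x hx => hw.equivariant γ a x hx⟩
        hWV hW hNW hN hs
  obtain ⟨x₁⟩ := (inferInstance : Nonempty X)
  have hfull : ∀ K : Subgroup Γ, ¬ HasField dev hol K univ ⊤ →
      ¬ Pool.Agent.TH845.Mk.Fld dev (hol.comp K.subtype) ⊤ := fun K hK ⟨Z, h1, h2, h3⟩ =>
    hK ⟨Z, h1, fun x _ => ⟨trivial, (h2 x trivial).2⟩, fun γ hγ x _ => h3 ⟨γ, hγ⟩ x trivial⟩
  refine ⟨fun K hK hno => ?_, fun hno => ?_⟩
  · have h := gen ⊤ K x₁ hK (AffineSubspace.mem_top ℝ E _)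
      (fun γ _ q _ => AffineSubspace.mem_top ℝ E _) (hfull K hno)
    rw [AffineSubspace.direction_top] at h
    exact h
  · obtain ⟨G, H, x₀, m⟩ := Pool.Agent.Y150.Ch.exists_min D' (fun K hK => hfull K (hno K hK))
    refine ⟨G, H, m.fin, m.inv, m.dir, ⟨x₀, m.mem⟩, ?_⟩
    intro K hK hKf
    exact ⟨fun ⟨Z, h1, h2, h3⟩ => m.fld K hK hKf ⟨Z, h1, h2, fun γ x hx => h3 γ.1 γ.2 x hx⟩,
      gen H K x₀ hKf m.mem (fun γ hγ => m.inv γ (hK hγ)) (m.fld K hK hKf)⟩

end Pool.Agent.Results.MP_1fa9a4_gt.ContractibleComplexes
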