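import Pool.Agent.L5helper73.AM.Sel
import Pool.Agent.Y150.Ch.Fc

/-!
# Contractible invariant sets and the holonomy of closed affine manifolds

Chern's conjecture says that closed affine manifolds have Euler characteristic zero. A closed
affine manifold with non-zero Euler characteristic has no finite covering with a vector field
without zeros (Poincare and Hopf). Let `Γ \ X` be a closed affine manifold with the latter
property, with affine holonomy group acting on the affine space `E`. We prove for all subgroups `K`
of finite index of `Γ`:

1. Any two nonempty `K`-invariant subsets of `E` which are contractible in the topology of `E`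
   have a common point, and each of them contains a point of the developing image.
2. Let `Y` be a contractible space on which `K` acts by homeomorphisms, and let `g_y`, `y ∈ Y`, be a
   continuous equivariant family of continuous maps `E → E`, for instance a contractible set of
   affine maps which is invariant under conjugation. Then some `g_y` has a fixed point in any given
   nonempty contractible `K`-invariant subset of `E`.
3. (The general principle.) Let `S(x, y)`, `x ∈ X`, `y ∈ Y`, be convex sets of vectors, permuted by
   `K`, which have a continuous selection near every point `(x, y)`. Then `0 ∈ S(x, y)` for some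
   `x` and `y`.

Some special cases of 3: continuous families `s(x, y)` of vectors or of linear forms on `E`,
equivariant up to positive factors, have zeros (`S(x, y)` is the ray of `s(x, y)` or the open
half-space on which `s(x, y)` is positive). So contractible sets of vectors or of linear forms which
are invariant under the linear holonomy contain zero, there are no invariant contractible sets of
half-spaces of `E`, and every invariant contractible set of vector fields on `X` has a member with a
zero. If nonempty convex sets `P(x, y)` of points of `E`, such that `{(x, y) | q ∈ P(x, y)}` is open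
for all `q`, are permuted by `K`, then `dev x ∈ P(x, y)` for some `x` and `y`. If the open sets `O_a`
cover `X × Y` (or `Y`), and `K` permutes them and vector fields `s_a` on them, up to positive factors,
then the origin is a convex combination of the `s_a(x, y)` with `(x, y) ∈ O_a`, for some `x`, `y`.

Nothing is assumed about the topology of `Y` or of the invariant sets but that they are
contractible. In the starting files there are results of this kind for convex and star-shaped
invariant sets, convex sets of fields, and for trees, hyperbolic spaces and CAT(0) spaces `Y`.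

Moreover, after a finite covering there is an invariant affine subspace `H` of positive dimension
which meets the developing image, such that `H` has no tangent fields without zeros and all this
holds for the closed affine manifold `K \ dev⁻¹(H)`, for all subgroups `K` of finite index; then 1
and 2 are about subsets and maps of `H`.

Proof. For a free, properly discontinuous and cocompact action of `K` on a locally compact
Hausdorff space `X` and an action of `K` on a contractible space `Y` there is an equivariant
continuous map `X → Y`. It is constructed over the union of the translates of finitely many small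
compact sets, one after the other; no triangulations are used, and `Y` need not be a complex. The
composition with the family gives an equivariant field on `X`, which must have a zero.
-/

set_option autoImplicit false

open Set Filter Topology

namespace Pool.Agent.Results.MP_1fa9a4_gt.ContractibleSets

/-- A closed affine manifold `Γ \ X` modelled on the vector space `E`: the group `Γ` acts on the
Hausdorff space `X` freely, properly discontinuously and with compact quotient, and the developing
map `dev` is a local homeomorphism to `E` that is equivariant with respect to the affine holonomy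
`hol`. -/
structure ClosedAffine (X Γ E : Type) [TopologicalSpace X] [Group Γ] [MulAction Γ X]
    [NormedAddCommGroup E] [NormedSpace ℝ E] (dev : X → E) (hol : Γ →* (E ≃ᵃ[ℝ] E)) : Prop where
  /-- the developing map is a local homeomorphism -/
  loc : IsLocalHomeomorph dev
  /-- the group acts by homeomorphisms -/
  cont : ∀ γ : Γ, Continuous fun x : X => γ • x
  /-- the action is free -/
  free : ∀ (γ : Γ) (x : X), γ • x = x → γ = 1
  /-- the developing map is equivariant -/
  equi : ∀ (γ : Γ) (x : X), dev (γ • x) = hol γ (dev x)
  /-- the action is properly discontinuous -/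
  pd : ∀ K : Set X, IsCompact K → {γ : Γ | ∃ x ∈ K, γ • x ∈ K}.Finite
  /-- the quotient is compact -/
  cc : ∃ K : Set X, IsCompact K ∧ ∀ x : X, ∃ γ : Γ, ∃ k ∈ K, γ • k = x

variable {X Γ E : Type} [TopologicalSpace X] [Group Γ] [MulAction Γ X] [NormedAddCommGroup E]
  [NormedSpace ℝ E]

/-- The linear holonomy. -/
def lin (hol : Γ →* (E ≃ᵃ[ℝ] E)) (γ : Γ) : E →ₗ[ℝ] E := (hol γ).linear

/-- The set `S` is invariant under `K`. -/
def Invariant (hol : Γ →* (E ≃ᵃ[ℝ] E)) (K : Subgroup Γ) (S : Set E) : Prop :=
  ∀ γ ∈ K, ∀ q ∈ S, hol γ q ∈ S

/-- The part of the cover which is developed into `H`. -/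
def Over (dev : X → E) (H : Set E) : Set X := {x | dev x ∈ H}

/-- The affine manifold `K \ dev⁻¹(H)`, where `H` is an affine subspace with the direction `V`,
has a continuous vector field without zeros. For `H = E` this is a vector field without zeros on
the covering `K \ X` of `Γ \ X`. -/
def HasField (dev : X → E) (hol : Γ →* (E ≃ᵃ[ℝ] E)) (K : Subgroup Γ) (H : Set E)
    (V : Submodule ℝ E) : Prop :=
  ∃ Z : X → E, ContinuousOn Z (Over dev H) ∧ (∀ x ∈ Over dev H, Z x ∈ V ∧ Z x ≠ 0) ∧
    ∀ γ ∈ K, ∀ x ∈ Over dev H, Z (γ • x) = lin hol γ (Z x)

/-- The group `K` acts by homeomorphisms on the contractible space `Y`. -/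
structure ContractibleAction (K Y : Type) [Group K] [TopologicalSpace Y] [MulAction K Y] :
    Prop where
  contractible : ContractibleSpace Y
  cont : ∀ γ : K, Continuous fun y : Y => γ • y

/-- The properties of the holonomy of `K \ dev⁻¹(H)`; `V` is the direction of `H`. -/
structure Contractibles (dev : X → E) (hol : Γ →* (E ≃ᵃ[ℝ] E)) (K : Subgroup Γ) (H : Set E)
    (V : Submodule ℝ E) : Prop where
  /-- Any two contractible `K`-invariant subsets of `H` have a common point, and they meet the
  developing image. -/
  sets : ∀ S T : Set E, S ⊆ H → T ⊆ H → ContractibleSpace S → ContractibleSpace T →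
    Invariant hol K S → Invariant hol K T → (S ∩ T).Nonempty ∧ ∃ x, dev x ∈ S
  /-- Let `g y`, `y ∈ Y`, be an equivariant continuous family of maps from `H` to `H`. Then some
  `g y` has a fixed point in the contractible `K`-invariant subset `S` of `H`. -/
  maps : ∀ (Y : Type) [TopologicalSpace Y] [MulAction K Y], ContractibleAction K Y →
    ∀ g : Y → E → E, ContinuousOn (fun p : Y × E => g p.1 p.2) (univ ×ˢ H) →
    (∀ y, ∀ q ∈ H, g y q ∈ H) →
    (∀ (γ : K) y, ∀ q ∈ H, g (γ • y) (hol γ.1 q) = hol γ.1 (g y q)) →
    ∀ S ⊆ H, ContractibleSpace S → Invariant hol K S → ∃ y, ∃ q ∈ S, g y q = q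
  /-- Let the `S (x, y)` be convex subsets of `V`, permuted by `K`, which have a continuous selection
  near every point `(x, y)`. Then some `S (x, y)` contains `0`. -/
  selections : ∀ (Y : Type) [TopologicalSpace Y] [MulAction K Y], ContractibleAction K Y →
    ∀ S : X × Y → Set E, (∀ x ∈ Over dev H, ∀ y, Convex ℝ (S (x, y)) ∧ S (x, y) ⊆ V) →
    (∀ x ∈ Over dev H, ∀ y, ∃ N ∈ 𝓝 (x, y), ∃ s : X × Y → E,
      ContinuousOn s (N ∩ Over dev H ×ˢ univ) ∧ ∀ p ∈ N, p.1 ∈ Over dev H → s p ∈ S p) →
    (∀ (γ : K), ∀ x ∈ Over dev H, ∀ y, ∀ v ∈ S (x, y), lin hol γ.1 v ∈ S (γ.1 • x, γ • y)) →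
    ∃ x ∈ Over dev H, ∃ y, (0 : E) ∈ S (x, y)

/-- **Theorem.** Let `Γ \ X` be a closed affine manifold of positive dimension, with `X` connected.
(1) `Contractibles` holds for all finite coverings `K \ X` of it which have no vector field without
zeros.
(2) If no finite covering of it has a vector field without zeros (this is the case if its Euler
characteristic is not zero), then there are a subgroup `G` of finite index and a `G`-invariant
affine subspace `H` of positive dimension, which meets the developing image, such that for every
subgroup `K` of finite index in `G` the closed affine manifold `K \ dev⁻¹(H)` has no vector field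
without zeros, and `Contractibles` holds for it. -/
theorem result [T2Space X] [ConnectedSpace X] [FiniteDimensional ℝ E] [Nontrivial E]
    {dev : X → E} {hol : Γ →* (E ≃ᵃ[ℝ] E)} (D : ClosedAffine X Γ E dev hol) :
    (∀ K : Subgroup Γ, K.FiniteIndex → ¬ HasField dev hol K univ ⊤ →
      Contractibles dev hol K univ ⊤) ∧
    ((∀ K : Subgroup Γ, K.FiniteIndex → ¬ HasField dev hol K univ ⊤) →
      ∃ (G : Subgroup Γ) (H : AffineSubspace ℝ E), G.FiniteIndex ∧ Invariant hol G H ∧
        H.direction ≠ ⊥ ∧ (∃ x, dev x ∈ H) ∧
        ∀ K ≤ G, K.FiniteIndex → ¬ HasField dev hol K H H.direction ∧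
          Contractibles dev hol K H H.direction) := by
  have D' : Pool.Agent.W689.Ch.AffMfd X Γ E dev hol := ⟨D.loc, D.cont, D.equi, D.pd, D.cc⟩
  have gen : ∀ (H : AffineSubspace ℝ E) (K : Subgroup Γ) (x₀ : X), K.FiniteIndex →
      dev x₀ ∈ H → (∀ γ ∈ K, ∀ q ∈ H, hol γ q ∈ H) →
      ¬ Pool.Agent.TH845.Mk.Fld dev (hol.comp K.subtype) H →
      Contractibles dev hol K H H.direction := by
    intro H K x₀ hK hx hinv hfld
    have m : Pool.Agent.L5helper76.CF.NoFld dev hol K H x₀ := ⟨hK, hx, hinv, hfld⟩
    refine ⟨?_, ?_, ?_⟩
    · intro S T hSH hTH hSc hTc hS hT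
      exact ⟨Pool.Agent.L5helper73.AM.sets D' D.free m hSH hTH hSc hTc hS hT,
        Pool.Agent.L5helper73.AM.developed D' D.free m hSH hSc hS⟩
    · intro Y _ _ hY g hg hgH hge S hSH hSc hS
      have := hY.contractible
      exact Pool.Agent.L5helper73.AM.fixed D' D.free m hY.cont hSH hSc hS hg hgH hge
    · intro Y _ _ hY S h1 h2 h3
      have := hY.contractible
      exact Pool.Agent.L5helper73.AM.sel_sub D' D.free m hY.cont (fun x hx y => (h1 x hx y).2)
        (fun x hx y => (h1 x hx y).1) h2 h3
  obtain ⟨x₁⟩ := (inferInstance : Nonempty X)
  have hfull : ∀ K : Subgroup Γ, ¬ HasField dev hol K univ ⊤ →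
      ¬ Pool.Agent.TH845.Mk.Fld dev (hol.comp K.subtype) ⊤ := fun K hK ⟨Z, h1, h2, h3⟩ =>
    hK ⟨Z, h1, fun x _ => ⟨trivial, (h2 x trivial).2⟩, fun γ hγ x _ => h3 ⟨γ, hγ⟩ x trivial⟩
  refine ⟨fun K hK hno => ?_, fun hno => ?_⟩
  · have h := gen ⊤ K x₁ hK (AffineSubspace.mem_top ℝ E _)
      (fun γ _ q _ => AffineSubspace.mem_top ℝ E _) (hfull K hno)
    rw [AffineSubspace.direction_top] at h
    exact h
  · obtain ⟨G, H, x₀, m⟩ := Pool.Agent.Y150.Ch.exists_min D' (fun K hK => hfull K (hno K hK))
    refine ⟨G, H, m.fin, m.inv, m.dir, ⟨x₀, m.mem⟩, ?_⟩
    intro K hK hKf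
    exact ⟨fun ⟨Z, h1, h2, h3⟩ => m.fld K hK hKf ⟨Z, h1, h2, fun γ x hx => h3 γ.1 γ.2 x hx⟩,
      gen H K x₀ hKf m.mem (fun γ hγ => m.inv γ (hK hγ)) (m.fld K hK hKf)⟩

end Pool.Agent.Results.MP_1fa9a4_gt.ContractibleSets
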