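import Pool.Agent.L5helper76.CF.B

/-!
# Holonomy images of convex sets with empty intersection on closed affine manifolds

Chern's conjecture says that closed affine manifolds have Euler characteristic zero. A closed
affine manifold with non-zero Euler characteristic has no finite covering with a vector field
without zeros (Poincare and Hopf). Let `Γ \ X` be a closed affine manifold with the latter
property. We prove, for every subgroup `K` of finite index of `Γ`:

1. (Finite surrounding.) Let the images of the compact set `P` under `K` cover `X`, and let `S` be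
   the finite set of the `γ ∈ K` with `γ P ∩ P ≠ ∅`. Then for every point `q` of the affine space,
   however far away, the convex hull of the finite set `S q` meets `dev P`.
2. (Common points.) Every `K`-invariant family of closed convex sets of the affine space such that
   finitely many members always have a common point, has a common point in `dev X`.

Moreover, after a finite covering, there is an invariant affine subspace `H` of positive dimension
which meets the developing image, such that the closed affine manifold developed into `H` has no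
tangent field without zeros over any finite covering, and such that for every subgroup `K` of
finite index in the holonomy group of `H`:

3. (Empty intersections.) Every convex subset `C` of `H`, bounded or not, with `C ≠ H`, has
   `dim H + 1` images under `K` without common point. Equivalently, `dim H + 1` images of any
   half-space of `H` cover all of `H`. In particular the only `K`-invariant filter with a basis of
   nonempty convex subsets of `H` is the trivial one.
4. (Constants.) Every real number is, as a constant function on `H`, a convex combination of the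
   functions `f ∘ γ`, `γ ∈ K`, for every non-constant affine function `f` on `H`.
5. (Coarse invariance.) A quasi-convex function `F` on `H`, with values in a linearly ordered set,
   is constant if for all `γ ∈ K` and all `p ∈ H` the sublevel set `{F ≤ F p}` contains the image
   under `γ` of some sublevel set `{F ≤ F q}`.
-/

set_option autoImplicit false

open Set Filter Topology

namespace Pool.Agent.Results.MP_1fa9a4_gt.ConvexFilters

/-- A closed affine manifold `Γ \ X` modelled on the vector space `E`: the group `Γ` acts on the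
Hausdorff space `X` properly discontinuously and with compact quotient, and the developing map
`dev` is a local homeomorphism to `E` that is equivariant with respect to the affine holonomy
`hol`. -/
structure ClosedAffine (X Γ E : Type) [TopologicalSpace X] [Group Γ] [MulAction Γ X]
    [NormedAddCommGroup E] [NormedSpace ℝ E] (dev : X → E) (hol : Γ →* (E ≃ᵃ[ℝ] E)) : Prop where
  /-- the developing map is a local homeomorphism -/
  loc : IsLocalHomeomorph dev
  /-- the group acts by homeomorphisms -/
  cont : ∀ γ : Γ, Continuous fun x : X => γ • x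
  /-- the developing map is equivariant -/
  equi : ∀ (γ : Γ) (x : X), dev (γ • x) = hol γ (dev x)
  /-- the action is properly discontinuous -/
  pd : ∀ K : Set X, IsCompact K → {γ : Γ | ∃ x ∈ K, γ • x ∈ K}.Finite
  /-- the quotient is compact -/
  cc : ∃ K : Set X, IsCompact K ∧ ∀ x : X, ∃ γ : Γ, ∃ k ∈ K, γ • k = x

variable {X Γ E : Type} [TopologicalSpace X] [Group Γ] [MulAction Γ X] [NormedAddCommGroup E]
  [NormedSpace ℝ E]

/-- The set `S` is invariant under `K`. -/
def Invariant (hol : Γ →* (E ≃ᵃ[ℝ] E)) (K : Subgroup Γ) (S : Set E) : Prop :=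
  ∀ γ ∈ K, ∀ q ∈ S, hol γ q ∈ S

/-- The affine manifold `K \ dev⁻¹(H)`, where `H` is an affine subspace with the direction `V`,
has a continuous vector field without zeros. For `H = E` this is a vector field without zeros on
the covering `K \ X` of `Γ \ X`. -/
def HasField (dev : X → E) (hol : Γ →* (E ≃ᵃ[ℝ] E)) (K : Subgroup Γ) (H : Set E)
    (V : Submodule ℝ E) : Prop :=
  ∃ Z : X → E, ContinuousOn Z {x | dev x ∈ H} ∧ (∀ x, dev x ∈ H → Z x ∈ V ∧ Z x ≠ 0) ∧
    ∀ γ ∈ K, ∀ x : X, dev x ∈ H → Z (γ • x) = (hol γ).linear (Z x)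

/-- If the `K`-images of the compact set `P` cover `dev⁻¹(H)` and `q ∈ H`, then some point of
`dev P ∩ H` is in the convex hull of the points `γ q`, where `γ ∈ K` and `γ` maps some point of
`P ∩ dev⁻¹(H)` to a point of `P`. -/
def Surrounds (dev : X → E) (hol : Γ →* (E ≃ᵃ[ℝ] E)) (K : Subgroup Γ) (H : Set E) : Prop :=
  ∀ P : Set X, IsCompact P → (∀ x, dev x ∈ H → ∃ γ ∈ K, γ • x ∈ P) → ∀ q ∈ H,
    ∃ x ∈ P, dev x ∈ H ∧
      dev x ∈ convexHull ℝ {y | ∃ γ ∈ K, (∃ z ∈ P, dev z ∈ H ∧ γ • z ∈ P) ∧ hol γ q = y}

/-- Every `K`-invariant family of closed convex sets such that finitely many members always have a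
common point, has a common point in the developing image. -/
def CommonPoint (dev : X → E) (hol : Γ →* (E ≃ᵃ[ℝ] E)) (K : Subgroup Γ) : Prop :=
  ∀ 𝓕 : Set (Set E), (∀ C ∈ 𝓕, Convex ℝ C ∧ IsClosed C) → (∀ γ ∈ K, ∀ C ∈ 𝓕, hol γ '' C ∈ 𝓕) →
    (∀ s : Finset (Set E), ↑s ⊆ 𝓕 → ∃ y, ∀ C ∈ s, y ∈ C) → ∃ x, ∀ C ∈ 𝓕, dev x ∈ C

/-- For every convex subset `C` of `H` with `C ≠ H` there are `n` elements `γ` of `K` such that the
sets `γ⁻¹(C)` have no common point in `H`. -/
def EmptyIntersection (hol : Γ →* (E ≃ᵃ[ℝ] E)) (K : Subgroup Γ) (H : Set E) (n : ℕ) : Prop :=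
  ∀ C ⊆ H, Convex ℝ C → C ≠ H → ∃ g : Fin n → Γ, (∀ i, g i ∈ K) ∧ ∀ p ∈ H, ∃ i, hol (g i) p ∉ C

/-- Every real constant is on `H` equal to a convex combination of the functions `f ∘ γ`, `γ ∈ K`,
for every affine function `f` which is not constant on `H`. -/
def Constants (hol : Γ →* (E ≃ᵃ[ℝ] E)) (K : Subgroup Γ) (H : Set E) : Prop :=
  ∀ f : E →ᵃ[ℝ] ℝ, (¬ ∀ p ∈ H, ∀ q ∈ H, f p = f q) → ∀ c : ℝ,
    ∃ g ∈ convexHull ℝ {g : E → ℝ | ∃ γ ∈ K, (fun p => f (hol γ p)) = g}, ∀ p ∈ H, g p = c

/-- A quasi-convex function on `H` with values in a linearly ordered set is constant if every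
sublevel set `{F ≤ F p}` contains, for every `γ ∈ K`, the image under `γ` of a sublevel set
`{F ≤ F q}`. -/
def NoCoarse (hol : Γ →* (E ≃ᵃ[ℝ] E)) (K : Subgroup Γ) (H : Set E) : Prop :=
  ∀ (L : Type) [LinearOrder L] (F : E → L), QuasiconvexOn ℝ H F →
    (∀ γ ∈ K, ∀ p ∈ H, ∃ q ∈ H, ∀ r ∈ H, F r ≤ F q → F (hol γ r) ≤ F p) →
    ∀ p ∈ H, ∀ q ∈ H, F p = F q

/-- **Theorem.** Let `Γ \ X` be a closed affine manifold of positive dimension, with `X` connected,
such that no finite covering of it has a vector field without zeros (this is the case if its Euler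
characteristic is not zero). Then every subgroup of finite index has the properties (1) and (2),
and there are a subgroup `G` of finite index and a `G`-invariant affine subspace `H` of positive
dimension, which meets the developing image, such that for every subgroup `K` of finite index in
`G`: the closed affine manifold `K \ dev⁻¹(H)` has no field without zeros and `K` has the
properties (3), (4) and (5), and (1) on `H`. -/
theorem result [T2Space X] [ConnectedSpace X] [FiniteDimensional ℝ E] [Nontrivial E]
    {dev : X → E} {hol : Γ →* (E ≃ᵃ[ℝ] E)} (D : ClosedAffine X Γ E dev hol)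
    (hno : ∀ K : Subgroup Γ, K.FiniteIndex → ¬ HasField dev hol K univ ⊤) :
    (∀ K : Subgroup Γ, K.FiniteIndex → Surrounds dev hol K univ ∧ CommonPoint dev hol K) ∧
    ∃ (G : Subgroup Γ) (H : AffineSubspace ℝ E), G.FiniteIndex ∧ Invariant hol G H ∧
      H.direction ≠ ⊥ ∧ (∃ x, dev x ∈ H) ∧
      ∀ K ≤ G, K.FiniteIndex →
        ¬ HasField dev hol K H H.direction ∧
        EmptyIntersection hol K H (Module.finrank ℝ H.direction + 1) ∧
        Constants hol K H ∧ NoCoarse hol K H ∧ Surrounds dev hol K H := by
  have D' : Pool.Agent.W689.Ch.AffMfd X Γ E dev hol := ⟨D.loc, D.cont, D.equi, D.pd, D.cc⟩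
  obtain ⟨x₁⟩ : Nonempty X := inferInstance
  refine ⟨fun K hK => ?_, ?_⟩
  · have m : Pool.Agent.L5helper76.CF.NoFld dev hol K ⊤ x₁ :=
      ⟨hK, AffineSubspace.mem_top ℝ E _, fun γ _ q _ => AffineSubspace.mem_top ℝ E _,
        fun ⟨Z, h1, h2, h3⟩ => hno K hK ⟨Z, h1, fun x _ => ⟨trivial, (h2 x trivial).2⟩,
          fun γ hγ x _ => h3 ⟨γ, hγ⟩ x trivial⟩⟩
    refine ⟨fun P hP hcov q _ => ?_, fun 𝓕 h1 h2 h3 => ?_⟩
    · exact Pool.Agent.L5helper76.CF.surround D' m hP (fun x _ => hcov x trivial)
        (AffineSubspace.mem_top ℝ E q)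
    · obtain ⟨x, -, hx⟩ := Pool.Agent.L5helper76.CF.common D' m (fun C hC => (h1 C hC).1)
        (fun C hC => (h1 C hC).2) h2 (fun s hs => by
          obtain ⟨y, hy⟩ := h3 s hs
          exact ⟨y, AffineSubspace.mem_top ℝ E _, hy⟩)
      exact ⟨x, hx⟩
  obtain ⟨G, H, x₀, m⟩ := Pool.Agent.Y150.Ch.exists_min D' (fun K hK ⟨Z, h1, h2, h3⟩ =>
    hno K hK ⟨Z, h1, fun x _ => ⟨trivial, (h2 x trivial).2⟩, fun γ hγ x _ => h3 ⟨γ, hγ⟩ x trivial⟩)
  refine ⟨G, H, m.fin, m.inv, m.dir, ⟨x₀, m.mem⟩, fun K hK hKf => ?_⟩
  refine ⟨fun ⟨Z, h1, h2, h3⟩ => m.fld K hK hKf ⟨Z, h1, h2, fun γ x hx => h3 γ.1 γ.2 x hx⟩,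
    ?_, ?_, ?_, ?_⟩
  · exact fun C hCH hC hne => Pool.Agent.L5helper76.CF.helly_core D' m hK hKf hC hCH hne
  · exact fun f hf c => Pool.Agent.L5helper76.CF.const_core D' m hK hKf hf c
  · intro L _ F h1 h2
    exact Pool.Agent.L5helper76.CF.coarse_core D' m hK hKf (fun p _ => h1 (F p)) h2
  · exact fun P hP hcov q hq => Pool.Agent.L5helper76.CF.surround D'
      (Pool.Agent.L5helper76.CF.NoFld.of_min m hK hKf) hP hcov hq

end Pool.Agent.Results.MP_1fa9a4_gt.ConvexFilters
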