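import Pool.Agent.L5helper91.CH.Sub

/-!
# Closed affine manifolds covered by pieces with parallel fields

Chern's conjecture says that closed affine manifolds have Euler characteristic zero. By the
theorem of Poincare and Hopf it is enough to find a continuous vector field without zeros (on a
finite covering). We prove: let the closed affine manifold `M` be covered by open sets
`W_0, W_1, …, W_m` such that, for every `j`, over every component of `W_j` the linear holonomy acts
by positive scalars on some subspace of dimension `j + 1` of the space of vectors (for instance, the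
component has `j + 1` linearly independent parallel vector fields), or such that it acts by positive
scalars on a quotient space of dimension `j + 1` (`j + 1` parallel one-forms). Then `M` has a
continuous vector field without zeros. More precisely, at each point `x` only the pieces which
contain `x` count: a piece `U_a` of rank `t a` needs more dimensions than there are pieces `U_b` of
smaller rank with `x ∈ U_a ∩ U_b`. All this can be done modulo a parallel distribution `W`.

Example: if `L` is a closed subset of `M` of covering dimension at most `dim M - 2` such that the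
linear holonomy of every component of `M \ L` leaves a half-line invariant, then `M` has a vector
field without zeros: take `W_0 = M \ L`, and for `W_1, W_2, …` disjoint unions of small balls.
This is special for flat bundles. The starting files (TreesAndHyperbolicSpaces) treat actions of the
fundamental group on trees and curved spaces, for which the stabilizers of the vertices leave
half-lines invariant. If all the pieces have amenable holonomy and `m < dim M`, the vanishing of the
Euler characteristic follows from the work of Gromov and Ivanov-Turaev on bounded cohomology.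

Proof. The group permutes the pieces of the cover; by induction over the rank one chooses vectors
`u_a` in the given subspaces, permuted by the group up to positive factors, such that `u_a` is never
in the span of the vectors of the pieces of smaller rank at a common point; up to the group there
are only finitely many proper subspaces to be avoided. A partition of unity gives a field whose
value at `x` is a positive combination of the `u_a` with `x ∈ U_a`, which are linearly independent.

By the starting files (`Y150.Ch.exists_min`) a closed affine manifold no finite covering of which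
has a field without zeros contains a core: the closed affine manifold developed into an affine
subspace `H` of positive dimension, which is invariant under a subgroup of finite index. The theorem
applies to the core, and to all its finite coverings, as well.
-/

set_option autoImplicit false

open Set

namespace Pool.Agent.Results.MP_1fa9a4_gt.PiecesWithParallelFields

/-- A closed affine manifold `Γ \ X` modelled on the vector space `E`: the group `Γ` acts on the
Hausdorff space `X` properly discontinuously and with compact quotient, and the developing map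
`dev` is a local homeomorphism to `E` that is equivariant with respect to the affine holonomy
`hol`. -/
structure ClosedAffine (X Γ E : Type) [TopologicalSpace X] [Group Γ] [MulAction Γ X]
    [NormedAddCommGroup E] [NormedSpace ℝ E] (dev : X → E) (hol : Γ →* (E ≃ᵃ[ℝ] E)) : Prop where
  /-- the developing map is a local homeomorphism -/
  loc : IsLocalHomeomorph dev
  /-- the group acts by homeomorphisms -/
  cont : ∀ γ : Γ, Continuous fun x : X => γ • x
  /-- the developing map is equivariant -/
  equi : ∀ (γ : Γ) (x : X), dev (γ • x) = hol γ (dev x)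
  /-- the action is properly discontinuous -/
  pd : ∀ K : Set X, IsCompact K → {γ : Γ | ∃ x ∈ K, γ • x ∈ K}.Finite
  /-- the quotient is compact -/
  cc : ∃ K : Set X, IsCompact K ∧ ∀ x : X, ∃ γ : Γ, ∃ k ∈ K, γ • k = x

variable {X Γ E : Type} [TopologicalSpace X] [Group Γ] [MulAction Γ X] [NormedAddCommGroup E]
  [NormedSpace ℝ E]

/-- The linear holonomy. -/
def lin (hol : Γ →* (E ≃ᵃ[ℝ] E)) (γ : Γ) : E →ₗ[ℝ] E := (hol γ).linear

/-- The set `S` is invariant under `K`. -/
def Invariant (hol : Γ →* (E ≃ᵃ[ℝ] E)) (K : Subgroup Γ) (S : Set E) : Prop :=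
  ∀ γ ∈ K, ∀ q ∈ S, hol γ q ∈ S

/-- The part of the cover which is developed into `H`. -/
def Over (dev : X → E) (H : Set E) : Set X := {x | dev x ∈ H}

/-- The affine manifold `K \ dev⁻¹(H)`, where `H` is an affine subspace with the direction `V`,
has a continuous vector field without zeros. For `H = E` this is a vector field without zeros on
the covering `K \ X` of `Γ \ X`. -/
def HasField (dev : X → E) (hol : Γ →* (E ≃ᵃ[ℝ] E)) (K : Subgroup Γ) (H : Set E)
    (V : Submodule ℝ E) : Prop :=
  ∃ Z : X → E, ContinuousOn Z (Over dev H) ∧ (∀ x ∈ Over dev H, Z x ∈ V ∧ Z x ≠ 0) ∧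
    ∀ γ ∈ K, ∀ x ∈ Over dev H, Z (γ • x) = lin hol γ (Z x)

/-- The open sets `U a`, for the members `a` of a `K`-set, cover `dev⁻¹(H)`, are permuted by `K`,
and have ranks `t a`, invariant under `K`, such that different sets of the same rank are disjoint.
The image `W_j` in `K \ dev⁻¹(H)` of the union of the `U a` of rank `j` is open. Conversely, if the
open sets `W_j` cover `K \ dev⁻¹(H)` one can take for the `U a` of rank `j` the components of the
inverse image of `W_j`; their stabilizers are the images of the fundamental groups of the
components of `W_j`. -/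
structure PieceCover (dev : X → E) (K : Subgroup Γ) (H : Set E) {A : Type} [MulAction K A]
    (U : A → Set X) (t : A → ℕ) : Prop where
  isOpen : ∀ a, IsOpen (U a)
  cover : ∀ x ∈ Over dev H, ∃ a, x ∈ U a
  equivariant : ∀ (γ : K) (a : A), ∀ x ∈ Over dev H, x ∈ U a → γ.1 • x ∈ U (γ • a)
  rank : ∀ (γ : K) (a : A), t (γ • a) = t a
  disjoint : ∀ a b, ∀ x ∈ Over dev H, x ∈ U a → x ∈ U b → t a = t b → a = b

/-- The pieces of smaller rank than `a` which contain `x`. There are at most `t a` of them. -/
def Lower {A : Type} (U : A → Set X) (t : A → ℕ) (a : A) (x : X) : Set A :=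
  {b | x ∈ U b ∧ t b < t a}

/-- The properties of the covers of `K \ dev⁻¹(H)` by pieces; `V` is the direction of `H`, and `W` is
an invariant subspace of `V`. -/
structure Pieces (dev : X → E) (hol : Γ →* (E ≃ᵃ[ℝ] E)) (K : Subgroup Γ) (H : Set E)
    (V : Submodule ℝ E) : Prop where
  /-- Let the `F a / W` be subspaces of `V / W` which are permuted by `K`, such that the stabilizer
  of `a` acts on `F a / W` by positive scalars. Then for some piece `U a` and some `x ∈ U a` the
  dimension of `F a / W` is at most the number of the pieces of smaller rank which contain `x`. -/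
  vectors : ∀ (A : Type) [MulAction K A] (U : A → Set X) (t : A → ℕ), PieceCover dev K H U t →
    ∀ (W : Submodule ℝ E) (F : A → Submodule ℝ E), W ≤ V → (∀ γ ∈ K, ∀ v ∈ W, lin hol γ v ∈ W) →
    (∀ a, W ≤ F a ∧ F a ≤ V) → (∀ (γ : K) (a : A), ∀ v ∈ F a, lin hol γ.1 v ∈ F (γ • a)) →
    (∀ (γ : K) (a : A), γ • a = a → ∃ c : ℝ, 0 < c ∧ ∀ v ∈ F a, lin hol γ.1 v - c • v ∈ W) →
    ∃ a, ∃ x ∈ Over dev H, x ∈ U a ∧
      Module.finrank ℝ (F a) ≤ Module.finrank ℝ W + (Lower U t a x).ncard
  /-- Let the `N a` be subspaces of `W` which are permuted by `K`, such that the stabilizer of `a`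
  acts on `W / N a` by positive scalars. Then for some piece `U a` and some `x ∈ U a` the dimension
  of `W / N a` is at most the number of the pieces of smaller rank which contain `x`. -/
  forms : ∀ (A : Type) [MulAction K A] (U : A → Set X) (t : A → ℕ), PieceCover dev K H U t →
    ∀ (W : Submodule ℝ E) (N : A → Submodule ℝ E), W ≤ V → (∀ γ ∈ K, ∀ v ∈ W, lin hol γ v ∈ W) →
    (∀ a, N a ≤ W) → (∀ (γ : K) (a : A), ∀ v ∈ N a, lin hol γ.1 v ∈ N (γ • a)) →
    (∀ (γ : K) (a : A), γ • a = a → ∃ c : ℝ, 0 < c ∧ ∀ v ∈ W, lin hol γ.1 v - c • v ∈ N a) →
    ∃ a, ∃ x ∈ Over dev H, x ∈ U a ∧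
      Module.finrank ℝ W ≤ Module.finrank ℝ (N a) + (Lower U t a x).ncard

/-- **Theorem.** Let `Γ \ X` be a closed affine manifold of positive dimension, with `X` connected.
(1) `Pieces` holds for all finite coverings `K \ X` of it which have no vector field without zeros.
(2) If no finite covering of it has a vector field without zeros (this is the case if its Euler
characteristic is not zero), then there are a subgroup `G` of finite index and a `G`-invariant
affine subspace `H` of positive dimension, which meets the developing image, such that for every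
subgroup `K` of finite index in `G` the closed affine manifold `K \ dev⁻¹(H)` has no vector field
without zeros, and `Pieces` holds for it. -/
theorem result [T2Space X] [ConnectedSpace X] [FiniteDimensional ℝ E] [Nontrivial E]
    {dev : X → E} {hol : Γ →* (E ≃ᵃ[ℝ] E)} (D : ClosedAffine X Γ E dev hol) :
    (∀ K : Subgroup Γ, K.FiniteIndex → ¬ HasField dev hol K univ ⊤ →
      Pieces dev hol K univ ⊤) ∧
    ((∀ K : Subgroup Γ, K.FiniteIndex → ¬ HasField dev hol K univ ⊤) →
      ∃ (G : Subgroup Γ) (H : AffineSubspace ℝ E), G.FiniteIndex ∧ Invariant hol G H ∧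
        H.direction ≠ ⊥ ∧ (∃ x, dev x ∈ H) ∧
        ∀ K ≤ G, K.FiniteIndex → ¬ HasField dev hol K H H.direction ∧
          Pieces dev hol K H H.direction) := by
  have D' : Pool.Agent.W689.Ch.AffMfd X Γ E dev hol := ⟨D.loc, D.cont, D.equi, D.pd, D.cc⟩
  have gen : ∀ (H : AffineSubspace ℝ E) (K : Subgroup Γ) (x₀ : X), K.FiniteIndex →
      dev x₀ ∈ H → (∀ γ ∈ K, ∀ q ∈ H, hol γ q ∈ H) →
      ¬ Pool.Agent.TH845.Mk.Fld dev (hol.comp K.subtype) H →
      Pieces dev hol K H H.direction := by
    intro H K x₀ hK hx hinv hfld
    have hcv : ∀ {A : Type} [MulAction K A] {U : A → Set X} {t : A → ℕ},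
        PieceCover dev K H U t → Pool.Agent.L5helper91.CH.CovH dev K H U t :=
      fun h => ⟨h.isOpen, h.cover, fun γ a x => h.equivariant γ a x, h.rank,
        fun a b x => h.disjoint a b x⟩
    refine ⟨?_, ?_⟩
    · intro A _ U t hc W F hWV hW hWF hF hs
      obtain ⟨a, x, h1, h2, h3⟩ := Pool.Agent.L5helper91.CH.vec_sub D' hK hx hinv hfld (hcv hc)
        hWV hW hWF hF hs
      exact ⟨a, x, h1, h2, h3⟩
    · intro A _ U t hc W N hWV hW hNW hN hs
      obtain ⟨a, x, h1, h2, h3⟩ := Pool.Agent.L5helper91.CH.form_sub D' hK hx hinv hfld (hcv hc)
        hWV hW hNW hN hs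
      exact ⟨a, x, h1, h2, h3⟩
  obtain ⟨x₁⟩ := (inferInstance : Nonempty X)
  have hfull : ∀ K : Subgroup Γ, ¬ HasField dev hol K univ ⊤ →
      ¬ Pool.Agent.TH845.Mk.Fld dev (hol.comp K.subtype) ⊤ := fun K hK ⟨Z, h1, h2, h3⟩ =>
    hK ⟨Z, h1, fun x _ => ⟨trivial, (h2 x trivial).2⟩, fun γ hγ x _ => h3 ⟨γ, hγ⟩ x trivial⟩
  refine ⟨fun K hK hno => ?_, fun hno => ?_⟩
  · have h := gen ⊤ K x₁ hK (AffineSubspace.mem_top ℝ E _)
      (fun γ _ q _ => AffineSubspace.mem_top ℝ E _) (hfull K hno)
    rw [AffineSubspace.direction_top] at h
    exact h
  · obtain ⟨G, H, x₀, m⟩ := Pool.Agent.Y150.Ch.exists_min D' (fun K hK => hfull K (hno K hK))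
    refine ⟨G, H, m.fin, m.inv, m.dir, ⟨x₀, m.mem⟩, ?_⟩
    intro K hK hKf
    exact ⟨fun ⟨Z, h1, h2, h3⟩ => m.fld K hK hKf ⟨Z, h1, h2, fun γ x hx => h3 γ.1 γ.2 x hx⟩,
      gen H K x₀ hKf m.mem (fun γ hγ => m.inv γ (hK hγ)) (m.fld K hK hKf)⟩

end Pool.Agent.Results.MP_1fa9a4_gt.PiecesWithParallelFields
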